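import Pool.Agent.H837.CF.Final

/-!
# Bloch's conjecture for a correspondence and rational equivalences of bounded complexity on the
# reductions to positive characteristic

No hypothesis is assumed. Let `X` be an irreducible projective variety of dimension `N ≥ 1` and `Y` a
projective variety over the complex numbers, for example two surfaces, and let `φ : B(X) → B(Y)` be a
homomorphism of the groups of zero-cycles modulo rational equivalence given by families of
zero-cycles: `φ([x]) = [f(x)] - [g(x)]` with morphisms `f : X → S^m(Y)` and `g : X → S^m'(Y)`. If `X` and
`Y` are smooth then the homomorphisms `Γ_*` for integral correspondences `Γ` of degree zero are of this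
kind, by the moving lemma.

There is a finitely generated subring `R` of the complex numbers such that `X` is given by forms `S`
over `R`, `Y` by forms `T` over `R`, and `f` and `g` by finite sets `G`, `G'` of polynomials over `R`
which are homogeneous in the coordinates of `x` and whose values at `x` are multiples, not all zero,
of the Chow form of `f(x)` resp. `g(x)`. For each homomorphism `ψ` from `R` to an algebraic closure `F` of
the field with `p` elements we consider the reductions `X_ψ`, `Y_ψ`, given by the equations with the
coefficients `ψ(c)`, and the families of zero-cycles on `Y_ψ` given by the reductions of the
polynomials in `G` and `G'`. Fix a hyperplane `l = 0` over `R` which does not contain `X`.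

**Theorem.** The following are equivalent:

1. for one `n` all fibres of the map `X^n → B(Y)`, `(x_1, …, x_n) ↦ φ([x_1] + … + [x_n])`, have positive
   dimension;
2. there are a closed subset `W` of `X` of dimension at most `N - 1` and a number `P` such that
   `φ(z) = φ(w + y)` for every effective zero-cycle `z` on `X`, with effective zero-cycles `w` on `W` and
   `y` on `X`, the latter of degree at most `P`;
3. (`UniformlyBounded`) there are numbers `n`, `c`, `p₀` and a nonzero `h` in `R` such that for all
   `p ≥ p₀`, all `ψ` with `ψ(h) ≠ 0` and all points `x_0, …, x_n` of `X_ψ` there are points `u_0, …, u_n` of
   `X_ψ`, with `u_0` on the hyperplane `l = 0`, such that the effective zero-cycles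
   `∑ f(x_i) + ∑ g(u_i)` and `∑ f(u_i) + ∑ g(x_i)` on `Y_ψ` are rationally equivalent with complexity at most
   `c`;
4. (`DenselyBounded`) there are numbers `n` and `c` such that for every nonzero `h` in `R` and all `p₀`
   this is true for at least one prime `p ≥ p₀` and one `ψ` with `ψ(h) ≠ 0`.

If `X` is a surface they are equivalent to

0. `φ` is finite-dimensional: the codimension in `X^n` of the fibres of the map in (1) is at most a
   constant which does not depend on `n`.

Here a rational equivalence between two effective zero-cycles `a` and `b` of the same degree has
complexity at most `c` if for an effective zero-cycle `w` of degree `c` the zero-cycles `a + w` and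
`b + w` are the values at `0` and `∞` of a morphism of degree `c` from the projective line to the
symmetric product, embedded by Chow forms.

**Bloch's conjecture for correspondences.** Let `X` and `Y` be smooth surfaces and `φ = Γ_*` for a
correspondence `Γ`. By the theorem of Roitman (0) says that `Γ_*` is zero on the kernel of the Albanese
map, so that the conjecture (Q1) for `Γ` says that (3), or equivalently (4), is true if `[Γ]^*` is zero
on the forms of degree two. By the theorem of Mumford (0) is false if `[Γ]^*` is not zero on them.
Over an algebraic closure of a finite field all zero-cycles in the kernel of the Albanese map are
rationally equivalent to zero (Roitman, Milne). Therefore, for all correspondences `Γ` and all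
sufficiently large `n` (independent of `p`), the rational equivalences in (3) exist, since already
`∑ [x_i]` is rationally equivalent to `∑ [u_i]` with all `u_i` on the curve `l = 0`. So
what remains of the conjecture is precisely a bound, uniform in `p`, for the complexity of rational
equivalences which are known to exist, and it is enough to have the bound on one sequence of reductions
which is dense. For varieties `X` of dimension `N` these are the same statements for the forms of degree
`N`.

## The proof

* (1) is equivalent to the statement that over the complex numbers, for one `n`, all zero-cycles
  `∑ [x_i]` of degree `n + 1` can be moved, without changing their image under `φ`, such that one of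
  their points is in the hyperplane `l = 0` (semicontinuity; library, seat Y148, and the equivalences of
  `MP_e1e111_ag.RoitmanNumbers`).
* The field of complex numbers is isomorphic, over `R`, to the ultraproduct of the fields `F_j` of
  characteristic `p_j` for every sequence of homomorphisms `ψ_j` from `R` to `F_j` such that every
  nonzero element of `R` is mapped to zero only by finitely many of the `ψ_j`. The graphs of the
  families of zero-cycles and the rational equivalences with complexity at most `c` over the
  ultraproduct are the ultraproducts of those over the `F_j`.
* If (3) is false for a given `n` there are such `ψ_j` and points over `F_j` which cannot be moved with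
  complexity `j`. The points given by them over the ultraproduct cannot be moved. If (4) is true the
  points over the ultraproduct can be moved.
-/

set_option autoImplicit false

namespace Pool.Agent.Results.MP_31564d_ag.CorrespondencesOverFiniteFields

open MvPolynomial Pool.Agent.Y148.OD Pool.Agent.H837.UF Pool.Agent.H837.CF
open Pool.Agent.H837.RN (Moves Hom)

/-- **A correspondence is finite-dimensional if and only if it is so with uniformly bounded complexity
over finite fields.** -/
theorem result {R : Type} [CommRing R] [Algebra.FiniteType ℤ R] {r s m m' N : ℕ} (D : Data R r s)
    (hN : 1 ≤ N) {ι : R →+* ℂ} (hι : Function.Injective ι) (hX : IsVariety (D.X ι) N)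
    (hY : (D.Y ι).Nonempty) {l : Fin (r + 1) → R} (hl : D.Proper ι l) {φ : Hom (D.X ι) (D.Y ι)}
    (hφ : D.Gives ι m m' φ) :
    [Positive φ, Moves φ (N - 1), UniformlyBounded D.S D.T D.G D.G' m m' l,
      DenselyBounded D.S D.T D.G D.G' m m' l].TFAE ∧ (N = 2 → (Positive φ ↔ FiniteDim φ)) :=
  ⟨data_tfae D hN hι hX hY hl hφ, fun h => by subst h; exact data_surface D hX hφ⟩

end Pool.Agent.Results.MP_31564d_ag.CorrespondencesOverFiniteFields
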