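import Pool.Agent.H836.BlochMain

/-!
# Bloch's conjecture for the correspondences which commute with a given one

Let `X` be a surface and `t_2(X) = (X, ω)` the transcendental part of its motive (Murre; Kahn, Murre
and Pedrini), so that `ω_* H(X) = H^2_tr(X)`, and `T(X) = ω_* CH(X)` is the kernel of the Albanese
map (with rational coefficients). We assume that some exterior power of `t_2(X)` vanishes; this is
the case if `X` is finite-dimensional in the sense of Kimura, for instance if `X` is dominated by a
product of curves (Fermat surfaces and their quotients, abelian surfaces, …). Let `g` be a correspondence in `CH^2(X × X)` and `P = ∑ c_n T^n` the characteristic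
polynomial of `g` on `H^2_tr(X)`.

**Theorem.** Let `Γ` be a correspondence in `CH^2(X × X)` which acts as zero on `H^{2,0}(X)`.

1. If `Γ` commutes with `g` (it is sufficient that they commute as endomorphisms of `t_2(X)`) then
   `(Γ_*)^e = 0` on `T(X)`, if the complex roots of `P` have multiplicity at most `e`. In particular
   `Γ` acts as zero on `T(X)`, as predicted by Bloch's conjecture, if `P` has simple roots.
2. Whether `Γ` commutes with `g` or not, `∑ c_n ∑_{i < n} (g_*)^i Γ_* (g_*)^(n - 1 - i) = 0` on
   `T(X)`.
3. For all zero-cycles `z`, `w` in `T(X)`, with `ᵗg` the transpose of `g`,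
   `∑ c_n ∑_{i < n} (ᵗg_*)^(n - 1 - i) z × (g_*)^i w = 0` in `CH(X × X)`.
4. Let a finite group `G` act on `X` or, more generally, on `t_2(X)` by correspondences `u_h`, such
   that some linear combination `g` of the `u_h` has a characteristic polynomial `P` with simple
   roots (this means that the representation of `G` on `H^2_tr(X, ℂ)` is multiplicity free). Then
   `∑_h (ᵗu_h)_* z × (u_h⁻¹)_* w = 0` for all `z`, `w` in `T(X)`. (For automorphisms `h` these are
   the terms `h^* z × h^* w`, so the image of `z × w` in the Chow group of zero-cycles on
   `(X × X) / G` is zero.)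

Up to now it was known that the correspondences `Γ` in 1 are nilpotent on `T(X)`, of index at most
`dim H^2_tr(X)` (Kimura), whether they commute with `g` or not. As an example, let `X` be one of the
K3 surfaces of Vorontsov and Kondō: some automorphism `g` of order `N` acts trivially on the
Néron–Severi group and `φ(N) = dim H^2_tr(X)`. These surfaces are dominated by Fermat surfaces
(Livné, Schütt, Yui), `P` is the cyclotomic polynomial, and `g` commutes with all automorphisms by
the Torelli theorem; so all the symplectic automorphisms of `X`, also those of infinite order, act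
trivially on the zero-cycles of degree zero.

The idea: the exact Cayley–Hamilton theorem (`P(g) = 0` as a correspondence on `t_2(X)`) for the
correspondences `g + s Γ`, `s ∈ ℚ`, which have the same characteristic polynomial as `g`.
-/

open CategoryTheory CategoryTheory.Limits AlgebraicGeometry
open Pool.Agent.H914 Pool.Agent.H914.VarClass Pool.Agent.H914.VarClass.Obj
open Pool.Agent.R903 Pool.Agent.H836 Pool.Agent.H836.Bloch

universe u v w

namespace Pool.Agent.Results.MP_31564d_ag.SimpleSpectrum

/-- Let `X` be a surface, `t_2(X) = (X, ω)` the transcendental part of its motive, some exterior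
power of which is assumed to vanish (so it is finite-dimensional in the sense of Kimura), `g` a correspondence and `P` its characteristic polynomial on the
cohomology of `t_2(X)`. Correspondences which commute with `g` satisfy Bloch's conjecture up to
nilpotence of the index `e`, if the roots of `P` have multiplicity at most `e`; for all
correspondences which act as zero on `H^{2,0}(X)` and for all pairs of zero-cycles in the kernel of
the Albanese map a linearized Cayley–Hamilton identity holds; finite groups. -/
theorem result {k : Type u} [Field k] {𝒱 : VarClass k} {C : ChowTheory.{u, v} 𝒱}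
    (hP : C.Polarized) (W : WeilTheory.{u, v, w} C) {X : 𝒱.Obj} (H20 : Set (W.H X))
    {ω : C.CH (X.prod X)} (hω : IsTranscendental W H20 ω) {m : ℕ} (hm : C.ExtVanishes ω m)
    {g : C.CH (X.prod X)} (hg : InCodim C 2 g) {P : Polynomial ℚ}
    (hPg : IsCharpoly P (W.act g) (motCoh W ω)) :
    (∀ e, MultLE P e → ∀ Γ, InCodim C 2 Γ → Kills W Γ H20 →
      cut C ω (C.comp g Γ) = cut C ω (C.comp Γ g) →
        ∀ a, InAlbaneseKernel C ω a → (op C Γ)^[e] a = 0) ∧
    (∀ Γ, InCodim C 2 Γ → Kills W Γ H20 → ∀ a, InAlbaneseKernel C ω a →
      linSum P (op C g) (op C Γ) a = 0) ∧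
    (∀ z w, InAlbaneseKernel C ω z → InAlbaneseKernel C ω w →
      divSum P (op C (tr C g)) (op C g) (cross C) z w = 0) ∧
    ∀ (G : Type) [Group G] [Fintype G] (u : G → C.CH (X.prod X)), GroupActs C ω u →
      InSpan u g → MultLE P 1 → ∀ z w, InAlbaneseKernel C ω z → InAlbaneseKernel C ω w →
        ∑ h, cross C (op C (tr C (u h)) z) (op C (u h⁻¹) w) = 0 :=
  have hK := kimuraFinite_of_ext (by rw [hω.dim]; exact hω.mem) hω.idem hm
  ⟨fun _ he _ hΓ hΓ0 hc _ ha => commuting hω hP hK hg hPg he hΓ hΓ0 hc ha,
    fun _ hΓ hΓ0 _ ha => linearized hω hP hK hg hPg hΓ hΓ0 ha,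
    fun _ _ hz hw => products hω hP hK hg hPg hz hw,
    fun _ _ _ _ hu hg' he _ _ hz hw => group_products hω hP hK hu hg' hPg he hz hw⟩

end Pool.Agent.Results.MP_31564d_ag.SimpleSpectrum
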